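import Mathlib

/-!
# The graph `K_{3,3}` as a Peano continuum

`Y` is the graph `K_{3,3}`, realised in `ℝ ^ 6` as the union of the nine segments that join the
unit vectors `e (inl a)` and `e (inr b)`.
-/

set_option autoImplicit false

open Set Topology

namespace Run7.h569.K33

/-- the ambient space -/
abbrev Amb : Type := (Fin 3 ⊕ Fin 3) → ℝ

/-- the point at parameter `t` on the edge from `inl a` to `inr b` -/
noncomputable def pt (a b : Fin 3) (t : ℝ) : Amb :=
  Sum.elim (fun i => if i = a then 1 - t else 0) (fun j => if j = b then t else 0)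

theorem continuous_pt (a b : Fin 3) : Continuous (pt a b) := by
  refine continuous_pi fun x => ?_
  rcases x with i | j
  · simp only [pt, Sum.elim_inl]
    by_cases h : i = a
    · simp only [h, if_true]; fun_prop
    · simp only [h, if_false]; fun_prop
  · simp only [pt, Sum.elim_inr]
    by_cases h : j = b
    · simp only [h, if_true]; fun_prop
    · simp only [h, if_false]; fun_prop

/-- the parametrisation of the graph -/
noncomputable def g (p : Fin 3 × Fin 3 × unitInterval) : Amb := pt p.1 p.2.1 p.2.2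

theorem continuous_g : Continuous g := by
  refine continuous_pi fun x => ?_
  have : ∀ p : Fin 3 × Fin 3 × unitInterval, g p x =
      ∑ a : Fin 3, ∑ b : Fin 3, (if p.1 = a ∧ p.2.1 = b then (1 : ℝ) else 0) *
        pt a b p.2.2 x := by
    rintro ⟨a, b, t⟩
    simp only [g]
    rw [Finset.sum_eq_single a]
    · rw [Finset.sum_eq_single b]
      · simp
      · intro b' _ hb'
        rw [if_neg (by rintro ⟨_, h⟩; exact hb' h.symm), zero_mul]
      · intro h; exact absurd (Finset.mem_univ _) h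
    · intro a' _ ha'
      apply Finset.sum_eq_zero
      intro b' _
      rw [if_neg (by rintro ⟨h, _⟩; exact ha' h.symm), zero_mul]
    · intro h; exact absurd (Finset.mem_univ _) h
  simp_rw [this]
  refine continuous_finsetSum _ fun a _ => continuous_finsetSum _ fun b _ => ?_
  refine Continuous.mul ?_ ?_
  · have h1 : Continuous fun q : Fin 3 × Fin 3 => (if q.1 = a ∧ q.2 = b then (1 : ℝ) else 0) :=
      continuous_of_discreteTopology
    have h2 : Continuous fun p : Fin 3 × Fin 3 × unitInterval => (p.1, p.2.1) := by fun_prop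
    exact h1.comp h2
  · have h1 : Continuous fun p : Fin 3 × Fin 3 × unitInterval => (p.2.2 : ℝ) := by fun_prop
    exact (continuous_apply x).comp ((continuous_pt a b).comp h1)

/-- the graph `K_{3,3}` -/
def Y : Type := Set.range g

noncomputable instance : MetricSpace Y := inferInstanceAs (MetricSpace (Set.range g))

instance : CompactSpace Y := isCompact_iff_compactSpace.1 (isCompact_range continuous_g)

/-- the parametrisation as a map to `Y` -/
noncomputable def gY (p : Fin 3 × Fin 3 × unitInterval) : Y := ⟨g p, mem_range_self p⟩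

theorem continuous_gY : Continuous gY := continuous_g.subtype_mk _

theorem surjective_gY : Function.Surjective gY := by
  rintro ⟨_, p, rfl⟩
  exact ⟨p, rfl⟩

theorem quotient_gY : IsQuotientMap gY :=
  (continuous_gY.isClosedMap).isQuotientMap continuous_gY surjective_gY

instance : LocallyConnectedSpace Y := by
  have h3 : LocallyPathConnectedSpace (Fin 3) := by
    refine ⟨fun x => ⟨fun s => ⟨fun hs => ⟨{x}, ⟨?_, ?_⟩, ?_⟩, fun ⟨i, hi, his⟩ => ?_⟩⟩⟩
    · exact (isOpen_discrete _).mem_nhds rfl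
    · exact isPathConnected_singleton x
    · exact singleton_subset_iff.2 (mem_of_mem_nhds hs)
    · exact Filter.mem_of_superset hi.1 his
  have hI : LocallyPathConnectedSpace unitInterval := (convex_Icc (0 : ℝ) 1).locallyPathConnectedSpace
  have : LocallyPathConnectedSpace Y := quotient_gY.locallyPathConnectedSpace
  infer_instance

/-- coordinates -/
def co (x : Fin 3 ⊕ Fin 3) (y : Y) : ℝ := y.1 x

theorem continuous_co (x : Fin 3 ⊕ Fin 3) : Continuous (co x) :=
  (continuous_apply x).comp continuous_subtype_val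

/-- the closed edge -/
def E (a b : Fin 3) : Set Y := (fun t => gY (a, b, t)) '' univ

theorem isConnected_E (a b : Fin 3) : IsConnected (E a b) := by
  have h : Continuous fun t : unitInterval => gY (a, b, t) := by
    exact continuous_gY.comp (by fun_prop)
  exact isConnected_univ.image _ h.continuousOn

theorem isCompact_E (a b : Fin 3) : IsCompact (E a b) := by
  have h : Continuous fun t : unitInterval => gY (a, b, t) := by
    exact continuous_gY.comp (by fun_prop)
  exact isCompact_univ.image h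

theorem mem_E_iff (a b : Fin 3) (y : Y) : y ∈ E a b ↔
    (∀ i, i ≠ a → co (Sum.inl i) y = 0) ∧ (∀ j, j ≠ b → co (Sum.inr j) y = 0) := by
  constructor
  · rintro ⟨t, -, rfl⟩
    refine ⟨fun i hi => ?_, fun j hj => ?_⟩
    · show pt a b t (Sum.inl i) = 0
      simp [pt, hi]
    · show pt a b t (Sum.inr j) = 0
      simp [pt, hj]
  · rintro ⟨h1, h2⟩
    obtain ⟨⟨a', b', t⟩, rfl⟩ := surjective_gY y
    have e1 : ∀ i, co (Sum.inl i) (gY (a', b', t)) = if i = a' then 1 - (t : ℝ) else 0 :=
      fun i => rfl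
    have e2 : ∀ j, co (Sum.inr j) (gY (a', b', t)) = if j = b' then (t : ℝ) else 0 :=
      fun i => rfl
    refine ⟨t, mem_univ _, ?_⟩
    apply Subtype.ext
    funext x
    rcases x with i | j
    · show (if i = a then 1 - (t : ℝ) else 0) = if i = a' then 1 - (t : ℝ) else 0
      by_cases haa : a' = a
      · rw [haa]
      · have := h1 a' haa
        rw [e1, if_pos rfl] at this
        simp [this]
    · show (if j = b then (t : ℝ) else 0) = if j = b' then (t : ℝ) else 0
      by_cases hbb : b' = b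
      · rw [hbb]
      · have := h2 b' hbb
        rw [e2, if_pos rfl] at this
        simp [this]

/-- coordinates are nonnegative and add up to one -/
theorem sum_co (y : Y) : (∑ i, co (Sum.inl i) y) + ∑ j, co (Sum.inr j) y = 1 := by
  obtain ⟨⟨a, b, t⟩, rfl⟩ := surjective_gY y
  have e1 : ∀ i, co (Sum.inl i) (gY (a, b, t)) = if i = a then 1 - (t : ℝ) else 0 :=
    fun i => rfl
  have e2 : ∀ j, co (Sum.inr j) (gY (a, b, t)) = if j = b then (t : ℝ) else 0 :=
    fun i => rfl
  simp [e1, e2]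

theorem E_disjoint {a b c d : Fin 3} (h1 : a ≠ c) (h2 : b ≠ d) : Disjoint (E a b) (E c d) := by
  rw [Set.disjoint_left]
  intro y hy hy'
  rw [mem_E_iff] at hy hy'
  have e1 : ∀ i, co (Sum.inl i) y = 0 := by
    intro i
    by_cases h : i = a
    · exact hy'.1 i (by rw [h]; exact h1)
    · exact hy.1 i h
  have e2 : ∀ j, co (Sum.inr j) y = 0 := by
    intro j
    by_cases h : j = b
    · exact hy'.2 j (by rw [h]; exact h2)
    · exact hy.2 j h
  have := sum_co y
  simp [e1, e2] at this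

/-- the vertices -/
noncomputable def vl (a : Fin 3) : Y := gY (a, 0, 0)
/-- the vertices -/
noncomputable def vr (b : Fin 3) : Y := gY (0, b, 1)

theorem vl_mem (a b : Fin 3) : vl a ∈ E a b := by
  rw [mem_E_iff]
  refine ⟨fun i hi => ?_, fun j _ => ?_⟩
  · show (if i = a then 1 - ((0 : unitInterval) : ℝ) else 0) = 0
    simp [hi]
  · show (if j = 0 then ((0 : unitInterval) : ℝ) else 0) = 0
    simp

theorem vr_mem (a b : Fin 3) : vr b ∈ E a b := by
  rw [mem_E_iff]
  refine ⟨fun i _ => ?_, fun j hj => ?_⟩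
  · show (if i = 0 then 1 - ((1 : unitInterval) : ℝ) else 0) = 0
    simp
  · show (if j = b then ((1 : unitInterval) : ℝ) else 0) = 0
    simp [hj]

theorem vl_ne_vr (a b : Fin 3) : vl a ≠ vr b := by
  intro h
  have h1 := congrArg (co (Sum.inl a)) h
  have e1 : co (Sum.inl a) (vl a) = 1 := by
    show (if a = a then 1 - ((0 : unitInterval) : ℝ) else 0) = 1
    simp
  have e2 : co (Sum.inl a) (vr b) = 0 := by
    show (if a = 0 then 1 - ((1 : unitInterval) : ℝ) else 0) = 0
    simp
  rw [e1, e2] at h1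
  exact one_ne_zero h1

instance : Nontrivial Y := ⟨⟨vl 0, vr 0, vl_ne_vr 0 0⟩⟩

instance : ConnectedSpace Y := by
  have : PreconnectedSpace Y := by
    refine ⟨isPreconnected_of_forall (vl 0) ?_⟩
    intro y _
    obtain ⟨⟨a, b, t⟩, rfl⟩ := surjective_gY y
    refine ⟨E 0 0 ∪ (E a 0 ∪ E a b), subset_univ _, Or.inl (vl_mem 0 0),
      Or.inr (Or.inr ⟨t, mem_univ _, rfl⟩), ?_⟩
    refine IsPreconnected.union (vr 0) (vr_mem 0 0) (Or.inl (vr_mem a 0))
      (isConnected_E 0 0).isPreconnected ?_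
    exact IsPreconnected.union (vl a) (vl_mem a 0) (vl_mem a b)
      (isConnected_E a 0).isPreconnected (isConnected_E a b).isPreconnected
  exact ⟨⟨vl 0⟩⟩

/-- the open edge -/
def O (a b : Fin 3) : Set Y := {y | 0 < co (Sum.inl a) y ∧ 0 < co (Sum.inr b) y}

theorem isOpen_O (a b : Fin 3) : IsOpen (O a b) :=
  (isOpen_lt continuous_const (continuous_co _)).inter
    (isOpen_lt continuous_const (continuous_co _))

theorem co_gY_inl (a b i : Fin 3) (t : unitInterval) :
    co (Sum.inl i) (gY (a, b, t)) = if i = a then 1 - (t : ℝ) else 0 := rfl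
theorem co_gY_inr (a b j : Fin 3) (t : unitInterval) :
    co (Sum.inr j) (gY (a, b, t)) = if j = b then (t : ℝ) else 0 := rfl

/-- points of the open edge `(a, b)` -/
theorem exists_of_mem_O {a b : Fin 3} {y : Y} (hy : y ∈ O a b) :
    ∃ t : unitInterval, y = gY (a, b, t) := by
  obtain ⟨⟨a', b', t⟩, rfl⟩ := surjective_gY y
  obtain ⟨h1, h2⟩ := hy
  rw [co_gY_inl] at h1
  rw [co_gY_inr] at h2
  by_cases ha : a = a'
  · by_cases hb : b = b'
    · subst ha; subst hb; exact ⟨t, rfl⟩
    · rw [if_neg hb] at h2; exact absurd h2 (lt_irrefl _)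
  · rw [if_neg ha] at h1; exact absurd h1 (lt_irrefl _)

theorem eq_of_co_eq {a b : Fin 3} {y z : Y} (hy : y ∈ O a b) (hz : z ∈ O a b)
    (h : co (Sum.inr b) y = co (Sum.inr b) z) : y = z := by
  obtain ⟨t, rfl⟩ := exists_of_mem_O hy
  obtain ⟨s, rfl⟩ := exists_of_mem_O hz
  rw [co_gY_inr, co_gY_inr, if_pos rfl, if_pos rfl] at h
  rw [Subtype.ext h]

/-- Every point is on an open edge or is one of the six vertices. -/
theorem cover (y : Y) : (∃ a b, y ∈ O a b) ∨ y ∈ (range vl ∪ range vr : Set Y) := by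
  obtain ⟨⟨a, b, t⟩, rfl⟩ := surjective_gY y
  rcases eq_or_ne (t : ℝ) 0 with h0 | h0
  · right; left
    refine ⟨a, ?_⟩
    apply Subtype.ext
    funext x
    rcases x with i | j
    · show (if i = a then 1 - ((0 : unitInterval) : ℝ) else 0) = if i = a then 1 - (t : ℝ) else 0
      simp [h0]
    · show (if j = 0 then ((0 : unitInterval) : ℝ) else 0) = if j = b then (t : ℝ) else 0
      simp [h0]
  rcases eq_or_ne (t : ℝ) 1 with h1 | h1
  · right; right
    refine ⟨b, ?_⟩
    apply Subtype.ext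
    funext x
    rcases x with i | j
    · show (if i = 0 then 1 - ((1 : unitInterval) : ℝ) else 0) = if i = a then 1 - (t : ℝ) else 0
      simp [h1]
    · show (if j = b then ((1 : unitInterval) : ℝ) else 0) = if j = b then (t : ℝ) else 0
      simp [h1]
  left
  refine ⟨a, b, ?_, ?_⟩
  · rw [co_gY_inl, if_pos rfl]
    have := t.2.2
    have h2 : (t : ℝ) < 1 := lt_of_le_of_ne this h1
    linarith
  · rw [co_gY_inr, if_pos rfl]
    exact lt_of_le_of_ne t.2.1 (Ne.symm h0)

/-- Every nondegenerate connected subset of the graph has interior. -/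
theorem exists_open (L : Set Y) (hL : IsPreconnected L) (hn : L.Nontrivial) :
    ∃ U : Set Y, IsOpen U ∧ U.Nonempty ∧ U ⊆ L := by
  have hinf : L.Infinite := hL.infinite_of_nontrivial hn
  -- some open edge meets `L` in an infinite set
  obtain ⟨a, b, hab⟩ : ∃ a b, (L ∩ O a b).Infinite := by
    by_contra hcon
    push Not at hcon
    have hfin : (⋃ a, ⋃ b, L ∩ O a b).Finite :=
      finite_iUnion fun a => finite_iUnion fun b => hcon a b
    apply hinf
    refine (hfin.union ((finite_range vl).union (finite_range vr))).subset ?_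
    intro y hy
    rcases cover y with ⟨a, b, h⟩ | h
    · left
      rw [mem_iUnion]
      refine ⟨a, ?_⟩
      rw [mem_iUnion]
      exact ⟨b, hy, h⟩
    · right; exact h
  -- the set of parameters
  set T : Set ℝ := co (Sum.inr b) '' (L ∩ O a b) with hT
  have hTinf : T.Infinite := hab.image (fun y hy z hz h => eq_of_co_eq hy.2 hz.2 h)
  have hT01 : ∀ t ∈ T, 0 < t ∧ t < 1 := by
    rintro _ ⟨y, ⟨-, hy⟩, rfl⟩
    refine ⟨hy.2, ?_⟩
    obtain ⟨t, rfl⟩ := exists_of_mem_O hy
    have h1 := hy.1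
    rw [co_gY_inl, if_pos rfl] at h1
    rw [co_gY_inr, if_pos rfl]
    linarith
  obtain ⟨t1, t2, t3, h1, h2, h3, h12, h23⟩ : ∃ t1 t2 t3, t1 ∈ T ∧ t2 ∈ T ∧ t3 ∈ T ∧
      t1 < t2 ∧ t2 < t3 := by
    obtain ⟨F, hF, hc⟩ := hTinf.exists_subset_card_eq 3
    obtain ⟨x, y, z, hxy, hxz, hyz, rfl⟩ := Finset.card_eq_three.1 hc
    have hx : x ∈ T := hF (by simp)
    have hy : y ∈ T := hF (by simp)
    have hz : z ∈ T := hF (by simp)
    rcases lt_or_gt_of_ne hxy with h | h <;> rcases lt_or_gt_of_ne hxz with h' | h' <;>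
      rcases lt_or_gt_of_ne hyz with h'' | h''
    · exact ⟨x, y, z, hx, hy, hz, h, h''⟩
    · exact ⟨x, z, y, hx, hz, hy, h', h''⟩
    · exact absurd (h.trans h'') (not_lt.2 h'.le)
    · exact ⟨z, x, y, hz, hx, hy, h', h⟩
    · exact ⟨y, x, z, hy, hx, hz, h, h'⟩
    · exact absurd (h''.trans h) (not_lt.2 h'.le)
    · exact ⟨y, z, x, hy, hz, hx, h'', h'⟩
    · exact ⟨z, y, x, hz, hy, hx, h'', h⟩
  -- an interval of parameters gives an open set
  have hint : ∀ r s : ℝ, 0 < r → s < 1 → r < s → Ioo r s ⊆ T →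
      ∃ U : Set Y, IsOpen U ∧ U.Nonempty ∧ U ⊆ L := by
    intro r s hr hs hrs hsub
    refine ⟨O a b ∩ co (Sum.inr b) ⁻¹' Ioo r s, (isOpen_O a b).inter
      (isOpen_Ioo.preimage (continuous_co _)), ?_, ?_⟩
    · obtain ⟨y, ⟨-, hy⟩, hy'⟩ := hsub (show (r + s) / 2 ∈ Ioo r s from ⟨by linarith, by linarith⟩)
      exact ⟨y, hy, by rw [mem_preimage, hy']; exact ⟨by linarith, by linarith⟩⟩
    · rintro y ⟨hy, hy'⟩
      obtain ⟨z, ⟨hz, hz'⟩, he⟩ := hsub hy'
      rw [eq_of_co_eq hy hz' he.symm]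
      exact hz
  have b1 := hT01 t1 h1
  have b2 := hT01 t2 h2
  have b3 := hT01 t3 h3
  by_cases hc1 : Ioo t1 t2 ⊆ T
  · exact hint t1 t2 b1.1 b2.2 h12 hc1
  by_cases hc2 : Ioo t2 t3 ⊆ T
  · exact hint t2 t3 b2.1 b3.2 h23 hc2
  exfalso
  obtain ⟨r1, ⟨hr1, hr1'⟩, hr1T⟩ := not_subset.1 hc1
  obtain ⟨r2, ⟨hr2, hr2'⟩, hr2T⟩ := not_subset.1 hc2
  have hW : IsOpen (O a b ∩ co (Sum.inr b) ⁻¹' Ioo r1 r2) :=
    (isOpen_O a b).inter (isOpen_Ioo.preimage (continuous_co _))
  have hC : IsClosed (E a b ∩ co (Sum.inr b) ⁻¹' Icc r1 r2) :=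
    (isCompact_E a b).isClosed.inter (isClosed_Icc.preimage (continuous_co _))
  have hsub : L ⊆ (O a b ∩ co (Sum.inr b) ⁻¹' Ioo r1 r2) ∪
      (E a b ∩ co (Sum.inr b) ⁻¹' Icc r1 r2)ᶜ := by
    intro y hy
    by_cases hy' : y ∈ E a b ∩ co (Sum.inr b) ⁻¹' Icc r1 r2
    · left
      obtain ⟨⟨t, -, rfl⟩, hm⟩ := hy'
      have hm' : (t : ℝ) ∈ Icc r1 r2 := by
        have := hm
        rw [mem_preimage, co_gY_inr, if_pos rfl] at this
        exact this
      have hO : gY (a, b, t) ∈ O a b := by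
        refine ⟨?_, ?_⟩
        · rw [co_gY_inl, if_pos rfl]
          have := hm'.2
          linarith [b3.2]
        · rw [co_gY_inr, if_pos rfl]
          linarith [hm'.1, b1.1]
      have htT : (t : ℝ) ∈ T := ⟨gY (a, b, t), ⟨hy, hO⟩, by rw [co_gY_inr, if_pos rfl]⟩
      refine ⟨hO, ?_⟩
      rw [mem_preimage, co_gY_inr, if_pos rfl]
      refine ⟨lt_of_le_of_ne hm'.1 ?_, lt_of_le_of_ne hm'.2 ?_⟩
      · intro h; apply hr1T; rw [h]; exact htT
      · intro h; apply hr2T; rw [← h]; exact htT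
    · right; exact hy'
  obtain ⟨y2, ⟨hy2, hy2'⟩, hy2e⟩ := h2
  obtain ⟨y1, ⟨hy1, hy1'⟩, hy1e⟩ := h1
  obtain ⟨z, hz, hz1, hz2⟩ := hL _ _ hW hC.isOpen_compl hsub
    ⟨y2, hy2, hy2', by rw [mem_preimage, hy2e]; exact ⟨hr1', hr2⟩⟩
    ⟨y1, hy1, by
      intro h
      have := h.2
      rw [mem_preimage, hy1e] at this
      linarith [this.1]⟩
  apply hz2
  refine ⟨?_, Ioo_subset_Icc_self hz1.2⟩
  obtain ⟨t, rfl⟩ := exists_of_mem_O hz1.1
  exact ⟨t, mem_univ _, rfl⟩

end Run7.h569.K33
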