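import Mathlib
import Pool.Agent.Helper805.CHS.Drawn
import Pool.Agent.Run7.h569.K33Graph

/-!
# `K_{3,3}` is not a monotone image of a plane continuum
-/

set_option autoImplicit false

open Set Topology Metric

namespace Run7.h569.K33

/-- preimages of connected closed sets under a closed map with connected fibres -/
theorem preconnected_preimage {X Z : Type*} [TopologicalSpace X] [TopologicalSpace Z]
    (f : X → Z) (hcl : IsClosedMap f) (hcont : Continuous f) (hsur : Function.Surjective f)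
    (hfib : ∀ z, IsPreconnected (f ⁻¹' {z})) (E : Set Z) (hE : IsClosed E)
    (hEc : IsPreconnected E) : IsPreconnected (f ⁻¹' E) := by
  rw [isPreconnected_closed_iff]
  intro u v hu hv hsub hmu hmv
  have hcE : IsClosed (f ⁻¹' E) := hE.preimage hcont
  have hA : IsClosed (f '' (f ⁻¹' E ∩ u)) := hcl _ (hcE.inter hu)
  have hB : IsClosed (f '' (f ⁻¹' E ∩ v)) := hcl _ (hcE.inter hv)
  have hcov : E ⊆ f '' (f ⁻¹' E ∩ u) ∪ f '' (f ⁻¹' E ∩ v) := by
    intro z hz
    obtain ⟨x, rfl⟩ := hsur z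
    rcases hsub hz with h | h
    · exact Or.inl ⟨x, ⟨hz, h⟩, rfl⟩
    · exact Or.inr ⟨x, ⟨hz, h⟩, rfl⟩
  have h1 : (E ∩ f '' (f ⁻¹' E ∩ u)).Nonempty := by
    obtain ⟨x, hx1, hx2⟩ := hmu
    exact ⟨f x, hx1, x, ⟨hx1, hx2⟩, rfl⟩
  have h2 : (E ∩ f '' (f ⁻¹' E ∩ v)).Nonempty := by
    obtain ⟨x, hx1, hx2⟩ := hmv
    exact ⟨f x, hx1, x, ⟨hx1, hx2⟩, rfl⟩
  obtain ⟨z, hz, ⟨x, ⟨hx1, hx2⟩, hxz⟩, ⟨y, ⟨hy1, hy2⟩, hyz⟩⟩ :=
    isPreconnected_closed_iff.1 hEc _ _ hA hB hcov h1 h2
  have hfz := isPreconnected_closed_iff.1 (hfib z) u v hu hv ?_ ⟨x, hxz, hx2⟩ ⟨y, hyz, hy2⟩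
  · obtain ⟨w, hw1, hw2⟩ := hfz
    refine ⟨w, ?_, hw2⟩
    show f w ∈ E
    rw [show f w = z from hw1]
    exact hz
  · intro w hw
    apply hsub
    show f w ∈ E
    rw [show f w = z from hw]
    exact hz

/-- the thickening of a connected subset of the plane is path connected -/
theorem isPathConnected_thickening {K : Set ℂ} (hK : IsConnected K) {δ : ℝ} (hδ : 0 < δ) :
    IsPathConnected (thickening δ K) := by
  rw [← isOpen_thickening.isConnected_iff_isPathConnected]
  obtain ⟨x0, hx0⟩ := hK.nonempty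
  refine ⟨⟨x0, self_subset_thickening hδ K hx0⟩, ?_⟩
  refine isPreconnected_of_forall x0 ?_
  intro y hy
  obtain ⟨x, hx, hxy⟩ := mem_thickening_iff.1 hy
  refine ⟨K ∪ ball x δ, ?_, Or.inl hx0, Or.inr hxy, ?_⟩
  · refine union_subset (self_subset_thickening hδ K) ?_
    intro z hz
    exact mem_thickening_iff.2 ⟨x, hx, hz⟩
  · exact IsPreconnected.union x hx (mem_ball_self hδ) hK.isPreconnected
      (convex_ball x δ).isPreconnected

/-- reduction to the nonplanarity of `K_{3,3}` -/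
theorem no_continua (p : Fin 6 → ℂ) (K : Fin 6 → Fin 6 → Set ℂ)
    (hK : ∀ a b, a < 3 → 3 ≤ b → IsCompact (K a b) ∧ IsConnected (K a b) ∧
      p a ∈ K a b ∧ p b ∈ K a b)
    (hdis : ∀ a b c d, a < 3 → 3 ≤ b → c < 3 → 3 ≤ d → a ≠ c → b ≠ d →
      Disjoint (K a b) (K c d)) : False := by
  have h1 : ∀ q : Fin 6 × Fin 6 × Fin 6 × Fin 6, ∃ δ : ℝ, 0 < δ ∧
      (q.1 < 3 → 3 ≤ q.2.1 → q.2.2.1 < 3 → 3 ≤ q.2.2.2 → q.1 ≠ q.2.2.1 → q.2.1 ≠ q.2.2.2 →
        Disjoint (thickening δ (K q.1 q.2.1)) (thickening δ (K q.2.2.1 q.2.2.2))) := by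
    rintro ⟨a, b, c, d⟩
    by_cases h : a < 3 ∧ 3 ≤ b ∧ c < 3 ∧ 3 ≤ d ∧ a ≠ c ∧ b ≠ d
    · obtain ⟨ha, hb, hc, hd, hac, hbd⟩ := h
      obtain ⟨δ, hδ, hD⟩ := (hdis a b c d ha hb hc hd hac hbd).exists_thickenings
        (hK a b ha hb).1 (hK c d hc hd).1.isClosed
      exact ⟨δ, hδ, fun _ _ _ _ _ _ => hD⟩
    · exact ⟨1, one_pos, fun ha hb hc hd hac hbd => absurd ⟨ha, hb, hc, hd, hac, hbd⟩ h⟩
  choose δ hδ hD using h1
  obtain ⟨q0, hq0⟩ := Finite.exists_min δ
  refine Pool.Agent.Helper805.CHS.VK.k33_joined p (fun a b => thickening (δ q0) (K a b)) ?_ ?_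
  · intro a b ha hb
    obtain ⟨-, h2, h3, h4⟩ := hK a b ha hb
    exact (isPathConnected_thickening h2 (hδ q0)).joinedIn _ (self_subset_thickening (hδ q0) _ h3)
      _ (self_subset_thickening (hδ q0) _ h4)
  · intro a b c d ha hb hc hd hac hbd
    have := hD (a, b, c, d) ha hb hc hd hac hbd
    exact this.mono (thickening_mono (hq0 _) _) (thickening_mono (hq0 _) _)

/-- There is no map with connected fibres from a plane continuum onto `K_{3,3}`. -/
theorem no_monotone (S : Set (EuclideanSpace ℝ (Fin 2))) (f : S → Y) (hS : IsCompact S)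
    (hf : Continuous f) (hsur : Function.Surjective f)
    (hfib : ∀ y : Y, IsConnected (Subtype.val '' (f ⁻¹' {y}))) : False := by
  have hcs : CompactSpace S := isCompact_iff_compactSpace.1 hS
  have hfib' : ∀ y : Y, IsPreconnected (f ⁻¹' {y}) := by
    intro y
    rw [← IsInducing.subtypeVal.isPreconnected_image]
    exact (hfib y).isPreconnected
  -- the isometry with `ℂ`
  let φ : EuclideanSpace ℝ (Fin 2) → ℂ := Complex.orthonormalBasisOneI.repr.symm
  have hφ : Continuous φ := LinearIsometryEquiv.continuous _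
  have hφi : Function.Injective φ := LinearIsometryEquiv.injective _
  let ψ : S → ℂ := fun x => φ x
  have hψ : Continuous ψ := hφ.comp continuous_subtype_val
  have hψi : Function.Injective ψ := hφi.comp Subtype.val_injective
  let tri : Fin 6 → Fin 3 := fun i => ⟨(i : ℕ) % 3, Nat.mod_lt _ (by norm_num)⟩
  choose s hs using hsur
  refine no_continua (fun i => if i < 3 then ψ (s (vl (tri i))) else ψ (s (vr (tri i))))
    (fun a b => ψ '' (f ⁻¹' E (tri a) (tri b))) ?_ ?_
  · intro a b ha hb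
    have hcE : IsClosed (E (tri a) (tri b)) := (isCompact_E _ _).isClosed
    refine ⟨((hcE.preimage hf).isCompact).image hψ, ?_, ?_, ?_⟩
    · refine IsConnected.image ⟨?_, ?_⟩ _ hψ.continuousOn
      · exact ⟨s (vl (tri a)), by rw [mem_preimage, hs]; exact vl_mem _ _⟩
      · exact preconnected_preimage f hf.isClosedMap hf (fun y => ⟨s y, hs y⟩) hfib' _ hcE
          (isConnected_E _ _).isPreconnected
    · simp only [if_pos ha]
      refine mem_image_of_mem _ ?_
      rw [mem_preimage, hs]; exact vl_mem _ _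
    · simp only [if_neg (not_lt.2 hb)]
      refine mem_image_of_mem _ ?_
      rw [mem_preimage, hs]; exact vr_mem _ _
  · intro a b c d ha hb hc hd hac hbd
    have h1 : tri a ≠ tri c := by
      intro h
      have h1 := congrArg Fin.val h
      simp only [tri] at h1
      apply hac
      apply Fin.ext
      have : (a : ℕ) < 3 := ha
      have : (c : ℕ) < 3 := hc
      omega
    have h2 : tri b ≠ tri d := by
      intro h
      have h1 := congrArg Fin.val h
      simp only [tri] at h1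
      apply hbd
      apply Fin.ext
      have : 3 ≤ (b : ℕ) := hb
      have : 3 ≤ (d : ℕ) := hd
      have := b.2
      have := d.2
      omega
    rw [Set.disjoint_image_iff hψi]
    exact (E_disjoint h1 h2).preimage f

end Run7.h569.K33
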